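import Pool.Agent.Helper73.RT.Defs

/-!
# Project RT, module E2: the number of edges
-/

set_option autoImplicit false

open Finset

namespace Pool.Agent.Helper73.RT

/-- RT-E2. The number of edges. -/
theorem edge_count {P : Type} [Fintype P] [DecidableEq P] (n : ℕ) (lab : Fin n → Bool × P)
    (γ : P → ℝ) (h0 : ∀ i, 0 ≤ γ i) (h1 : ∑ i, γ i = 1)
    (hlab : ∀ (b : Bool) (i : P), n * γ i / 2 - 1 ≤
      ((univ.filter fun v => lab v = (b, i)).card : ℝ))
    (X : P → P → Prop) [DecidablePred fun p : P × P => X p.1 p.2] (G : SimpleGraph (Fin n))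
    (hG : ∀ x y, (lab x).1 = true → (lab y).1 = false → X (lab x).2 (lab y).2 → G.Adj x y)
    (δ : ℝ) (hδ : δ ≤ ∑ p ∈ univ.filter (fun p : P × P => X p.1 p.2), γ p.1 * γ p.2) :
    δ * n ^ 2 / 4 - n * Fintype.card P ≤ (G.edgeSet.ncard : ℝ) := by
  classical
  set PX : Finset (P × P) := univ.filter (fun p : P × P => X p.1 p.2) with hPX
  let A : Bool → P → Finset (Fin n) := fun b i => univ.filter fun v => lab v = (b, i)
  let T : Finset (Fin n × Fin n) := PX.biUnion fun p => A true p.1 ×ˢ A false p.2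
  have hmemT : ∀ z ∈ T, (lab z.1).1 = true ∧ (lab z.2).1 = false ∧
      X (lab z.1).2 (lab z.2).2 := by
    intro z hz
    simp only [T, mem_biUnion, mem_product, A, mem_filter, mem_univ, true_and, hPX] at hz
    obtain ⟨p, hp, hz1, hz2⟩ := hz
    rw [hz1, hz2]
    exact ⟨rfl, rfl, hp⟩
  have hinj : Set.InjOn (fun z : Fin n × Fin n => s(z.1, z.2)) (T : Set (Fin n × Fin n)) := by
    intro z hz z' hz' h
    have h1 := hmemT z (by simpa using hz)
    have h2 := hmemT z' (by simpa using hz')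
    simp only [Sym2.eq_iff] at h
    rcases h with h | h
    · exact Prod.ext h.1 h.2
    · exfalso
      have := h1.1
      rw [h.1, h2.2.1] at this
      exact Bool.noConfusion this
  have hsub : ((T.image fun z => s(z.1, z.2) : Finset (Sym2 (Fin n))) : Set (Sym2 (Fin n)))
      ⊆ G.edgeSet := by
    intro e he
    simp only [coe_image, Set.mem_image, mem_coe] at he
    obtain ⟨z, hz, rfl⟩ := he
    obtain ⟨ha, hb, hc⟩ := hmemT z hz
    exact hG _ _ ha hb hc
  have hcard : T.card ≤ G.edgeSet.ncard := by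
    rw [← card_image_of_injOn hinj, ← Set.ncard_coe_finset]
    exact Set.ncard_le_ncard hsub (Set.toFinite _)
  have hTcard : T.card = ∑ p ∈ PX, (A true p.1).card * (A false p.2).card := by
    rw [card_biUnion]
    · simp only [card_product]
    · intro p _ p' _ hpp'
      rw [Function.onFun, disjoint_left]
      rintro z hz hz'
      simp only [mem_product, A, mem_filter, mem_univ, true_and] at hz hz'
      apply hpp'
      have e1 := hz.1.symm.trans hz'.1
      have e2 := hz.2.symm.trans hz'.2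
      exact Prod.ext (Prod.ext_iff.1 e1).2 (Prod.ext_iff.1 e2).2
  have key : ∀ p : P × P, (n : ℝ) ^ 2 * (γ p.1 * γ p.2) / 4 - n * γ p.1 / 2 - n * γ p.2 / 2 ≤
      ((A true p.1).card : ℝ) * ((A false p.2).card : ℝ) := by
    intro p
    have ha := hlab true p.1
    have hb := hlab false p.2
    have hm : (0 : ℝ) ≤ ((A true p.1).card : ℝ) := Nat.cast_nonneg _
    have hm' : (0 : ℝ) ≤ ((A false p.2).card : ℝ) := Nat.cast_nonneg _
    have hn : (0 : ℝ) ≤ (n : ℝ) := Nat.cast_nonneg _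
    change n * γ p.1 / 2 - 1 ≤ ((A true p.1).card : ℝ) at ha
    change n * γ p.2 / 2 - 1 ≤ ((A false p.2).card : ℝ) at hb
    have hx : 0 ≤ n * γ p.1 / 2 := by have := mul_nonneg hn (h0 p.1); linarith
    have hy : 0 ≤ n * γ p.2 / 2 := by have := mul_nonneg hn (h0 p.2); linarith
    have e : (n : ℝ) ^ 2 * (γ p.1 * γ p.2) / 4 = (n * γ p.1 / 2) * (n * γ p.2 / 2) := by ring
    rw [e]
    set a := n * γ p.1 / 2
    set b := n * γ p.2 / 2
    set m := ((A true p.1).card : ℝ)
    set m' := ((A false p.2).card : ℝ)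
    have hmm : 0 ≤ m * m' := mul_nonneg hm hm'
    by_cases h1a : 1 ≤ a
    · by_cases h1b : 1 ≤ b
      · have := mul_le_mul ha hb (by linarith) hm
        nlinarith
      · push Not at h1b
        nlinarith [mul_nonneg hx (sub_nonneg.2 h1b.le)]
    · push Not at h1a
      nlinarith [mul_nonneg hy (sub_nonneg.2 h1a.le)]
  have hn : (0 : ℝ) ≤ (n : ℝ) := Nat.cast_nonneg _
  have s1 : ∑ p ∈ PX, (γ p.1 + γ p.2) ≤ 2 * Fintype.card P := by
    calc ∑ p ∈ PX, (γ p.1 + γ p.2) ≤ ∑ p : P × P, (γ p.1 + γ p.2) := by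
          apply sum_le_sum_of_subset_of_nonneg (subset_univ _)
          intro p _ _
          exact add_nonneg (h0 _) (h0 _)
      _ = 2 * Fintype.card P := by
          rw [Fintype.sum_prod_type]
          simp only [sum_add_distrib, sum_const, card_univ, nsmul_eq_mul, ← mul_sum, h1]
          ring
  have hfin : (T.card : ℝ) ≥ δ * n ^ 2 / 4 - n * Fintype.card P := by
    rw [hTcard]
    push_cast
    have s2 : ∑ p ∈ PX, ((n : ℝ) ^ 2 * (γ p.1 * γ p.2) / 4 - n * γ p.1 / 2 - n * γ p.2 / 2) ≤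
        ∑ p ∈ PX, ((A true p.1).card : ℝ) * ((A false p.2).card : ℝ) :=
      sum_le_sum fun p _ => key p
    have s3 : ∑ p ∈ PX, ((n : ℝ) ^ 2 * (γ p.1 * γ p.2) / 4 - n * γ p.1 / 2 - n * γ p.2 / 2) =
        (n : ℝ) ^ 2 / 4 * ∑ p ∈ PX, γ p.1 * γ p.2 - n / 2 * ∑ p ∈ PX, (γ p.1 + γ p.2) := by
      rw [mul_sum, mul_sum, ← sum_sub_distrib]
      apply sum_congr rfl
      intro p _
      ring
    have s4 : (n : ℝ) ^ 2 / 4 * δ ≤ (n : ℝ) ^ 2 / 4 * ∑ p ∈ PX, γ p.1 * γ p.2 :=
      mul_le_mul_of_nonneg_left hδ (by positivity)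
    have s5 : (n : ℝ) / 2 * ∑ p ∈ PX, (γ p.1 + γ p.2) ≤ n / 2 * (2 * Fintype.card P) :=
      mul_le_mul_of_nonneg_left s1 (by positivity)
    linarith
  have := (Nat.cast_le (α := ℝ)).2 hcard
  linarith

end Pool.Agent.Helper73.RT
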